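import Pool.Agent.N586.DD.Stm

/-!
# Project DD: the second moment method for the discrepancy (helper370)
-/

set_option autoImplicit false

namespace Pool.Agent.N586.DD

open Finset
open Pool.Agent.Y933.KD (e e_zero e_add norm_e e_neg)

/-- truncated exponentials -/
noncomputable def Dm_z (y : ℕ → ℕ → ℝ) (n0 N1 h : ℕ) (a n : ℕ) : ℂ :=
  if n0 + n ≤ N1 then e (h * y a (n0 + n)) else 0

theorem Dm_harm (H : ℕ) : ∑ h ∈ Icc 1 H, (1 : ℝ) / h ≤ 1 + Real.log H := by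
  have h1 := harmonic_le_one_add_log H
  rw [harmonic_eq_sum_Icc] at h1
  push_cast at h1
  simpa [one_div] using h1

theorem Dm_harm0 (H : ℕ) : 0 ≤ ∑ h ∈ Icc 1 H, (1 : ℝ) / h :=
  Finset.sum_nonneg fun h _ => by positivity

theorem Dm_norm (y : ℕ → ℕ → ℝ) (n0 N1 h a n : ℕ) : ‖Dm_z y n0 N1 h a n‖ ≤ 1 := by
  unfold Dm_z
  split_ifs
  · rw [norm_e]
  · simp

theorem Dm_corr (I : Finset ℕ) (y : ℕ → ℕ → ℝ) (n0 N1 h : ℕ) (η : ℝ) (hη : 0 ≤ η)
    (hc : ∀ n n' : ℕ, n0 ≤ n' → n' < n → n ≤ N1 →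
      ‖∑ a ∈ I, e (h * (y a n - y a n'))‖ ≤ η * (I.card : ℝ)) (n n' : ℕ) (hn : n' < n) :
    ‖∑ a ∈ I, Dm_z y n0 N1 h a n * (starRingEnd ℂ) (Dm_z y n0 N1 h a n')‖ ≤
      η * (I.card : ℝ) := by
  by_cases h1 : n0 + n ≤ N1
  · have h2 : n0 + n' ≤ N1 := by omega
    have h3 : ∀ a ∈ I, Dm_z y n0 N1 h a n * (starRingEnd ℂ) (Dm_z y n0 N1 h a n') =
        e (h * (y a (n0 + n) - y a (n0 + n'))) := by
      intro a _
      unfold Dm_z
      rw [if_pos h1, if_pos h2, ← e_neg, ← e_add]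
      congr 1
      ring
    rw [Finset.sum_congr rfl h3]
    exact hc _ _ (by omega) (by omega) h1
  · have h3 : ∀ a ∈ I, Dm_z y n0 N1 h a n * (starRingEnd ℂ) (Dm_z y n0 N1 h a n') = 0 := by
      intro a _
      unfold Dm_z
      rw [if_neg h1, zero_mul]
    rw [Finset.sum_eq_zero h3, norm_zero]
    positivity

/-- the exponential sum over a piece -/
theorem Dm_piece (y : ℕ → ℕ → ℝ) (n0 N1 h a M N : ℕ) (hM : n0 ≤ M) (hN : M + N ≤ N1) :
    ‖∑ n ∈ Ico M (M + N), e (h * y a n)‖ ≤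
      ‖∑ n ∈ range (M + N - n0), Dm_z y n0 N1 h a n‖ +
        ‖∑ n ∈ range (M - n0), Dm_z y n0 N1 h a n‖ := by
  have h1 : ∑ n ∈ Ico M (M + N), e (h * y a n) =
      ∑ n ∈ range (M + N - n0), Dm_z y n0 N1 h a n - ∑ n ∈ range (M - n0), Dm_z y n0 N1 h a n := by
    rw [← Finset.sum_Ico_eq_sub _ (by omega : M - n0 ≤ M + N - n0)]
    have h2 : ∑ n ∈ Ico (M - n0) (M + N - n0), Dm_z y n0 N1 h a n =
        ∑ n ∈ Ico (M - n0) (M + N - n0), e (h * y a (n0 + n)) := by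
      refine Finset.sum_congr rfl fun n hn => ?_
      rw [Finset.mem_Ico] at hn
      unfold Dm_z
      rw [if_pos (by omega)]
    rw [h2, Finset.sum_Ico_add (fun n => e (h * y a n)) (M - n0) (M + N - n0) n0]
    congr 2 <;> omega
  rw [h1]
  exact norm_sub_le _ _

/-- the sum `∑ |R_m| / h` -/
noncomputable def Dm_T (y : ℕ → ℕ → ℝ) (n0 N1 H m a : ℕ) : ℝ :=
  ∑ h ∈ Icc 1 H, ‖∑ n ∈ range m, Dm_z y n0 N1 h a n‖ / h

theorem Dm_T0 (y : ℕ → ℕ → ℝ) (n0 N1 H a : ℕ) : Dm_T y n0 N1 H 0 a = 0 := by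
  simp [Dm_T]

theorem Dm_Tnn (y : ℕ → ℕ → ℝ) (n0 N1 H m a : ℕ) : 0 ≤ Dm_T y n0 N1 H m a :=
  Finset.sum_nonneg fun h _ => by positivity

/-- Cauchy-Schwarz -/
theorem Dm_CS (y : ℕ → ℕ → ℝ) (n0 N1 H m a : ℕ) (V : ℕ → ℝ)
    (hV : ∀ h, 1 ≤ h → h ≤ H → ‖∑ n ∈ range m, Dm_z y n0 N1 h a n‖ ^ 2 ≤ V h) :
    Dm_T y n0 N1 H m a ^ 2 ≤ (∑ h ∈ Icc 1 H, (1 : ℝ) / h) * ∑ h ∈ Icc 1 H, V h / h := by
  have h1 : Dm_T y n0 N1 H m a ^ 2 ≤ (∑ h ∈ Icc 1 H, (1 : ℝ) / h) *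
      ∑ h ∈ Icc 1 H, ‖∑ n ∈ range m, Dm_z y n0 N1 h a n‖ ^ 2 / h := by
    unfold Dm_T
    refine Finset.sum_sq_le_sum_mul_sum_of_sq_le_mul _ (fun h _ => by positivity)
      (fun h _ => by positivity) fun h hh => le_of_eq ?_
    rw [Finset.mem_Icc] at hh
    have : (h : ℝ) ≠ 0 := by
      have : 0 < h := by omega
      positivity
    field_simp
  refine h1.trans (mul_le_mul_of_nonneg_left ?_ (Dm_harm0 H))
  refine Finset.sum_le_sum fun h hh => ?_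
  rw [Finset.mem_Icc] at hh
  exact div_le_div_of_nonneg_right (hV h hh.1 hh.2) (by positivity)

/-- a large discrepancy gives a large sum -/
theorem Dm_bad (h1 : S_ET) (y : ℕ → ℕ → ℝ) (n0 N1 H : ℕ) (E : ℝ) (hn0 : 1 ≤ n0)
    (hN1 : n0 ≤ N1) (hH : N1 ^ 2 ≤ H) (hE : 8 ≤ E) (a : ℕ) (ha : ¬ Dsc n0 N1 E (y a)) :
    ∃ m : ℕ, 1 ≤ m ∧ m ≤ N1 ∧ E / 8 * √(m : ℝ) < Dm_T y n0 N1 H m a := by
  unfold Dsc at ha
  push Not at ha
  obtain ⟨M, N, u, v, hM, hN, hu, huv, hv, hbad⟩ := ha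
  have hH1 : 1 ≤ H := le_trans (Nat.one_le_pow _ _ (by omega)) hH
  have hET := h1 (Ico M (M + N)) (y a) H u v hH1 hu huv hv
  have hcard : ((Ico M (M + N)).card : ℝ) = N := by simp
  rw [hcard] at hET
  have hsqH : (N1 : ℝ) ≤ √(H : ℝ) := by
    apply Real.le_sqrt_of_sq_le
    exact_mod_cast hH
  have hsqpos : 0 < √(H : ℝ) := by
    apply Real.sqrt_pos.2
    exact_mod_cast hH1
  have hNN : (N : ℝ) ≤ N1 := by
    have : N ≤ N1 := by omega
    exact_mod_cast this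
  have h4 : 4 * (N : ℝ) / √(H : ℝ) ≤ 4 := by
    rw [div_le_iff₀ hsqpos]
    linarith
  have hMN1 : (1 : ℝ) ≤ (M : ℝ) + N := by
    have : 1 ≤ M + N := by omega
    exact_mod_cast this
  have hs1 : 1 ≤ √((M : ℝ) + N) := by
    rw [show (1 : ℝ) = √1 by simp]
    exact Real.sqrt_le_sqrt (by simpa using hMN1)
  have hT : ∑ h ∈ Icc 1 H, ‖∑ n ∈ Ico M (M + N), e (h * y a n)‖ / h ≤
      Dm_T y n0 N1 H (M + N - n0) a + Dm_T y n0 N1 H (M - n0) a := by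
    unfold Dm_T
    rw [← Finset.sum_add_distrib]
    refine Finset.sum_le_sum fun h _ => ?_
    rw [← add_div]
    exact div_le_div_of_nonneg_right (Dm_piece y n0 N1 h a M N hM hN) (by positivity)
  have key : E / 4 * √((M : ℝ) + N) <
      Dm_T y n0 N1 H (M + N - n0) a + Dm_T y n0 N1 H (M - n0) a := by
    have h5 : 4 ≤ E / 2 * √((M : ℝ) + N) := by nlinarith
    have h6 := hbad.trans_le hET
    nlinarith
  have main : ∀ m : ℕ, m ≤ M + N → m ≤ N1 →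
      E / 8 * √((M : ℝ) + N) < Dm_T y n0 N1 H m a →
      ∃ m : ℕ, 1 ≤ m ∧ m ≤ N1 ∧ E / 8 * √(m : ℝ) < Dm_T y n0 N1 H m a := by
    intro m hm hm2 hlt
    refine ⟨m, ?_, hm2, lt_of_le_of_lt ?_ hlt⟩
    · by_contra h0
      have h0' : m = 0 := by omega
      rw [h0', Dm_T0] at hlt
      have : 0 ≤ E / 8 * √((M : ℝ) + N) := by positivity
      linarith
    · apply mul_le_mul_of_nonneg_left _ (by linarith)
      apply Real.sqrt_le_sqrt
      exact_mod_cast hm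
  by_cases h7 : E / 8 * √((M : ℝ) + N) < Dm_T y n0 N1 H (M + N - n0) a
  · exact main _ (by omega) (by omega) h7
  · refine main (M - n0) (by omega) (by omega) ?_
    push Not at h7
    linarith

open Classical in
/-- **DD/DM**: the second moment method for the discrepancy -/
theorem dm (h1 : S_ET) (h2 : S_MX) : S_DM := by
  intro I y n0 N1 H η E hn0 hN1 hH hη hE hc
  set Hm : ℝ := ∑ h ∈ Icc 1 H, (1 : ℝ) / h with hHm
  have hHm0 : 0 ≤ Hm := Dm_harm0 H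
  have hHmL : Hm ≤ 1 + Real.log H := Dm_harm H
  have hV : ∀ h i : ℕ, ∃ V : ℕ → ℝ, (∀ a, 0 ≤ V a) ∧ (1 ≤ h → h ≤ H →
      (∀ a ∈ I, ∀ m < 2 ^ i, ‖∑ n ∈ range m, Dm_z y n0 N1 h a n‖ ^ 2 ≤ V a) ∧
      ∑ a ∈ I, V a ≤ i * (2 ^ i * (i + 2 ^ i * η)) * (I.card : ℝ)) := by
    intro h i
    by_cases hh : 1 ≤ h ∧ h ≤ H
    · obtain ⟨V, v0, v1, v2⟩ := h2 I (Dm_z y n0 N1 h) η i hη (Dm_norm y n0 N1 h)
        (Dm_corr I y n0 N1 h η hη (hc h hh.1 hh.2))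
      exact ⟨V, v0, fun _ _ => ⟨v1, v2⟩⟩
    · exact ⟨fun _ => 0, fun _ => le_rfl, fun h3 h4 => absurd ⟨h3, h4⟩ hh⟩
  choose V hV0 hV1 using hV
  set W : ℕ → ℕ → ℝ := fun i a => ∑ h ∈ Icc 1 H, V h i a / h with hW
  have hW0 : ∀ i a, 0 ≤ W i a := fun i a =>
    Finset.sum_nonneg fun h _ => div_nonneg (hV0 h i a) (by positivity)
  have hWs : ∀ i : ℕ, ∑ a ∈ I, W i a ≤ Hm * (i * (2 ^ i * (i + 2 ^ i * η)) * (I.card : ℝ)) := by
    intro i
    simp only [hW]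
    rw [Finset.sum_comm, hHm, Finset.sum_mul]
    refine Finset.sum_le_sum fun h hh => ?_
    rw [Finset.mem_Icc] at hh
    rw [← Finset.sum_div, div_mul_eq_mul_div, one_mul]
    exact div_le_div_of_nonneg_right (hV1 h i hh.1 hh.2).2 (by positivity)
  have hT : ∀ i m : ℕ, m < 2 ^ i → ∀ a ∈ I, Dm_T y n0 N1 H m a ^ 2 ≤ Hm * W i a := by
    intro i m hm a ha
    exact Dm_CS y n0 N1 H m a (fun h => V h i a) fun h hh1 hh2 => (hV1 h i hh1 hh2).1 a ha m hm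
  set L : ℕ := Nat.log 2 N1 with hL
  have hN1' : (2 : ℝ) ^ (L + 1) ≤ 2 * N1 := by
    have h3 : 2 ^ L ≤ N1 := Nat.pow_log_le_self 2 (by omega)
    have h4 : (2 : ℝ) ^ L ≤ N1 := by exact_mod_cast h3
    rw [pow_succ]
    linarith
  set B : ℕ → Finset ℕ := fun j => I.filter (fun a => E ^ 2 / 64 * 2 ^ j < Hm * W (j + 1) a)
    with hB
  have hsub : I.filter (fun a => ¬ Dsc n0 N1 E (y a)) ⊆ (range (L + 1)).biUnion B := by
    intro a ha
    rw [Finset.mem_filter] at ha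
    obtain ⟨m, hm1, hm2, hm3⟩ := Dm_bad h1 y n0 N1 H E hn0 hN1 hH hE a ha.2
    rw [Finset.mem_biUnion]
    refine ⟨Nat.log 2 m, ?_, ?_⟩
    · rw [Finset.mem_range]
      have := Nat.log_mono_right (b := 2) hm2
      omega
    · rw [hB, Finset.mem_filter]
      refine ⟨ha.1, ?_⟩
      have h3 : 2 ^ Nat.log 2 m ≤ m := Nat.pow_log_le_self 2 (by omega)
      have h4 : (2 : ℝ) ^ Nat.log 2 m ≤ m := by exact_mod_cast h3
      have h5 : m < 2 ^ (Nat.log 2 m + 1) := Nat.lt_pow_succ_log_self (by norm_num) m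
      have h6 := hT _ m h5 a ha.1
      have h7 : (E / 8 * √(m : ℝ)) ^ 2 < Dm_T y n0 N1 H m a ^ 2 :=
        pow_lt_pow_left₀ hm3 (by positivity) (by norm_num)
      rw [mul_pow, Real.sq_sqrt (by positivity)] at h7
      have h8 : E ^ 2 / 64 * 2 ^ Nat.log 2 m ≤ (E / 8) ^ 2 * (m : ℝ) := by
        rw [div_pow]
        norm_num
        exact mul_le_mul_of_nonneg_left h4 (by positivity)
      linarith
  have hEpos : 0 < E ^ 2 := by positivity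
  have hcardI : (0 : ℝ) ≤ I.card := by positivity
  have hBj : ∀ j ∈ range (L + 1), ((B j).card : ℝ) ≤
      128 * Hm ^ 2 * ((L + 1 : ℝ) * ((L + 1 : ℝ) + 2 * N1 * η)) * I.card / E ^ 2 := by
    intro j hj
    rw [Finset.mem_range] at hj
    have h3 : ((B j).card : ℝ) * (E ^ 2 / 64 * 2 ^ j) ≤ ∑ a ∈ B j, Hm * W (j + 1) a := by
      rw [← nsmul_eq_mul]
      refine Finset.card_nsmul_le_sum _ _ _ fun a ha => ?_
      rw [hB, Finset.mem_filter] at ha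
      exact ha.2.le
    have h4 : ∑ a ∈ B j, Hm * W (j + 1) a ≤ Hm * ∑ a ∈ I, W (j + 1) a := by
      rw [Finset.mul_sum]
      exact Finset.sum_le_sum_of_subset_of_nonneg (Finset.filter_subset _ _)
        fun a _ _ => mul_nonneg hHm0 (hW0 _ _)
    have h5 := mul_le_mul_of_nonneg_left (hWs (j + 1)) hHm0
    have h6 := (h3.trans h4).trans h5
    have h2j : (0 : ℝ) < 2 ^ j := by positivity
    have h7 : ((B j).card : ℝ) * E ^ 2 ≤
        128 * Hm ^ 2 * ((j + 1 : ℝ) * ((j + 1 : ℝ) + 2 ^ (j + 1) * η)) * I.card := by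
      have h8 : ((B j).card : ℝ) * E ^ 2 * 2 ^ j ≤
        128 * Hm ^ 2 * ((j + 1 : ℝ) * ((j + 1 : ℝ) + 2 ^ (j + 1) * η)) * I.card * 2 ^ j := by
        have h9 : Hm * (Hm * (((j + 1 : ℕ) : ℝ) * (2 ^ (j + 1) * (((j + 1 : ℕ) : ℝ) +
            2 ^ (j + 1) * η)) * (I.card : ℝ))) =
            2 * Hm ^ 2 * ((j + 1 : ℝ) * ((j + 1 : ℝ) + 2 ^ (j + 1) * η)) * I.card * 2 ^ j := by
          push_cast
          ring
        rw [h9] at h6
        nlinarith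
      exact le_of_mul_le_mul_right h8 h2j
    have hjL : (j : ℝ) ≤ L := by
      have : j ≤ L := by omega
      exact_mod_cast this
    have h2L : (2 : ℝ) ^ (j + 1) ≤ 2 * N1 :=
      (pow_le_pow_right₀ (by norm_num) (by omega)).trans hN1'
    rw [le_div_iff₀ hEpos]
    refine h7.trans ?_
    gcongr
  have hfin : ((I.filter (fun a => ¬ Dsc n0 N1 E (y a))).card : ℝ) ≤
      (L + 1 : ℝ) * (128 * Hm ^ 2 * ((L + 1 : ℝ) * ((L + 1 : ℝ) + 2 * N1 * η)) * I.card / E ^ 2) := by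
    have h3 : ((I.filter (fun a => ¬ Dsc n0 N1 E (y a))).card : ℝ) ≤
        ∑ j ∈ range (L + 1), ((B j).card : ℝ) := by
      have h4 := (Finset.card_le_card hsub).trans Finset.card_biUnion_le
      exact_mod_cast h4
    refine h3.trans ((Finset.sum_le_sum hBj).trans ?_)
    rw [Finset.sum_const, Finset.card_range, nsmul_eq_mul]
    push_cast
    exact le_rfl
  refine hfin.trans ?_
  rw [← mul_div_assoc]
  apply div_le_div_of_nonneg_right _ hEpos.le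
  have hL0 : (0 : ℝ) ≤ L := by positivity
  have hN0 : (0 : ℝ) ≤ N1 := by positivity
  have e1 : (L + 1 : ℝ) * (128 * Hm ^ 2 * ((L + 1 : ℝ) * ((L + 1 : ℝ) + 2 * N1 * η)) * I.card) =
      128 * (I.card : ℝ) * Hm ^ 2 * (L + 1 : ℝ) ^ 2 * ((L + 1 : ℝ) + 2 * N1 * η) := by ring
  rw [e1]
  gcongr
  · linarith
  · linarith
  · linarith

end Pool.Agent.N586.DD
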