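import Pool.Agent.N586.DD.Stm

set_option autoImplicit false

/-!
# Project DD: the inequality of Erdős and Turán for one interval. By helper322.
-/

namespace Pool.Agent.N586.DD

open Finset
open Pool.Agent.Y933.KD (e)

theorem Et_e (x : ℝ) : Pool.Agent.H469R2.NK.e x = e x := rfl

theorem Et_fract (t c : ℝ) (h0 : 0 ≤ c) (h1 : c ≤ 1) :
    Int.fract (t - c) = Int.fract t - c + (if Int.fract t < c then 1 else 0) := by
  have f0 := Int.fract_nonneg t
  have f1 := Int.fract_lt_one t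
  have f2 := Int.self_sub_floor t
  by_cases h : Int.fract t < c
  · rw [if_pos h, Int.fract_eq_iff]
    refine ⟨by linarith, by linarith, ⌊t⌋ - 1, ?_⟩
    push_cast
    linarith
  · rw [if_neg h, Int.fract_eq_iff]
    push Not at h
    refine ⟨by linarith, by linarith, ⌊t⌋, ?_⟩
    linarith

theorem Et_ind (t u v : ℝ) (hu : 0 ≤ u) (huv : u ≤ v) (hv : v ≤ 1) :
    (if u ≤ Int.fract t ∧ Int.fract t < v then (1 : ℝ) else 0) =
      (v - u) + ((Int.fract (t - v) - 1 / 2) - (Int.fract (t - u) - 1 / 2)) := by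
  rw [Et_fract t v (hu.trans huv) hv, Et_fract t u hu (huv.trans hv)]
  by_cases h1 : Int.fract t < u
  · have h2 : Int.fract t < v := h1.trans_le huv
    rw [if_pos h1, if_pos h2, if_neg (fun h => absurd h.1 (not_le.2 h1))]
    ring
  · have h1' := not_lt.1 h1
    by_cases h2 : Int.fract t < v
    · rw [if_neg h1, if_pos h2, if_pos ⟨h1', h2⟩]
      ring
    · rw [if_neg h1, if_neg h2, if_neg (fun h => h2 h.2)]
      ring

theorem Et_norm (S : Finset ℕ) (y : ℕ → ℝ) (c : ℝ) (h : ℕ) :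
    ‖∑ n ∈ S, Pool.Agent.H469R2.NK.e (h * (y n - c))‖ = ‖∑ n ∈ S, e (h * y n)‖ := by
  have h1 : ∀ n, Pool.Agent.H469R2.NK.e (h * (y n - c)) =
      e (h * y n) * Pool.Agent.H469R2.NK.e (-(h * c)) := by
    intro n
    rw [← Et_e, ← Pool.Agent.H469R2.NK.e_add]
    congr 1
    ring
  rw [Finset.sum_congr rfl fun n _ => h1 n, ← Finset.sum_mul, norm_mul,
    Pool.Agent.H469R2.NK.norm_e, mul_one]

theorem Et_saw (S : Finset ℕ) (y : ℕ → ℝ) (H : ℕ) (c : ℝ) (hH : 1 ≤ H) :
    |∑ n ∈ S, (Int.fract (y n - c) - 1 / 2)| ≤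
      ∑ h ∈ Icc 1 H, ‖∑ n ∈ S, e (h * y n)‖ / h + 2 * S.card / √H := by
  have hH1 : (1 : ℝ) ≤ H := by exact_mod_cast hH
  have hs1 : 1 ≤ √(H : ℝ) := by
    rw [Real.one_le_sqrt]
    exact hH1
  have hs0 : 0 < √(H : ℝ) := by linarith
  have h1 := Pool.Agent.R485.Trans.saw_bound S (fun n => y n - c) H hH (1 / √(H : ℝ))
    (by positivity) (by rw [div_le_one hs0]; exact hs1)
  refine h1.trans (le_of_eq ?_)
  have h2 : ∑ h ∈ Icc 1 H, ‖∑ n ∈ S, Pool.Agent.H469R2.NK.e (h * (y n - c))‖ / (h : ℝ) =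
      ∑ h ∈ Icc 1 H, ‖∑ n ∈ S, e (h * y n)‖ / h :=
    Finset.sum_congr rfl fun h _ => by rw [Et_norm]
  have h3 : (H : ℝ) * (1 / √(H : ℝ)) = √(H : ℝ) := by
    rw [mul_one_div, div_eq_iff hs0.ne']
    exact (Real.mul_self_sqrt (by linarith)).symm
  rw [h2, h3]
  ring

/-- the inequality of Erdős and Turán for one interval -/
theorem et : S_ET := by
  intro S y H u v hH hu huv hv
  have h1 : ((S.filter (fun n => u ≤ Int.fract (y n) ∧ Int.fract (y n) < v)).card : ℝ) -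
      S.card * (v - u) = ∑ n ∈ S, (Int.fract (y n - v) - 1 / 2) -
        ∑ n ∈ S, (Int.fract (y n - u) - 1 / 2) := by
    rw [Finset.card_filter]
    push_cast
    rw [Finset.sum_congr rfl fun n _ => Et_ind (y n) u v hu huv hv, Finset.sum_add_distrib,
      Finset.sum_const, nsmul_eq_mul, Finset.sum_sub_distrib]
    ring
  rw [h1]
  have h2 := Et_saw S y H v hH
  have h3 := Et_saw S y H u hH
  have h4 := (abs_sub _ _).trans (add_le_add h2 h3)
  refine h4.trans (le_of_eq ?_)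
  ring

end Pool.Agent.N586.DD
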