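import Pool.Agent.N586.KO.Exps
import Pool.Agent.N586.DD.CoreU

/-!
# Project DD: from one point to the exponential sum over a, uniformly in the factor `ξ`
-/

set_option autoImplicit false

namespace Pool.Agent.N586.DD

open Finset Filter
open Pool.Agent.Y933.KD (e)
open Pool.Agent.Y957.VK (TT)
open Pool.Agent.N586.KO

open Classical in
/-- the exponential sums over `a`, uniformly in `ξ` -/
def S_EXPSU : Prop := ∀ (w K : ℕ) (δ β T0 T1 : ℝ), 0 < δ → 0 < β → 2 * δ + β < 1 →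
    1 < T0 → ∃ A0 : ℝ, 0 < A0 ∧ ∃ q0 : ℕ, ∀ q : ℕ, q0 ≤ q → ∀ (g : ℝ → ℝ) (A B : ℕ),
    (∀ a : ℕ, A ≤ a → a ≤ B → ∃ (Y : ℝ) (W : ℕ → ℕ → ℝ), Ex g a Y W ∧ T0 ≤ g a ∧ g a ≤ T1 ∧
      (q : ℝ) ^ (99 / 100 : ℝ) ≤ Y ∧ Y ≤ (q : ℝ) ^ (101 / 100 : ℝ)) →
    ∀ (ξ : ℝ), ξ ≠ 0 → 10 * |Real.log (|ξ|)| ≤ Real.log q →
    ∀ (l : ℕ → ℤ) (n n' : ℕ), (∀ j, |l j| ≤ K) → n' < n → A0 * Real.log q ≤ n' →
    (n : ℝ) ≤ (Real.log q) ^ (1 + δ) →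
    ‖∑ a ∈ Finset.Icc A B, e (Fph w ξ l n n' (g a))‖ ≤
      (((Finset.Icc A B).filter (fun a : ℕ => |pl w l (g a)| < (Real.log q) ^ (-(1 / 2) : ℝ))).card : ℝ) +
        2 * (MM q : ℝ) ^ 2 + ((Finset.Icc A B).card : ℝ) * Real.exp (-(Real.log q) ^ β)

open Classical in
theorem expsU (h : S_COREU) : S_EXPSU := by
  intro w K δ β T0 T1 hδ hβ hδβ hT0
  obtain ⟨A0, hA0, q0, hcore⟩ := h w K δ β T0 T1 hδ hβ hδβ hT0
  refine ⟨A0, hA0, max q0 1, ?_⟩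
  intro q hq g A B hg ξ hξ hξq l n n' hl hn hn' hnL
  have hq0 : q0 ≤ q := (le_max_left _ _).trans hq
  have hq1 : 1 ≤ q := (le_max_right _ _).trans hq
  obtain ⟨M, hM⟩ : ∃ M, M = MM q := ⟨_, rfl⟩
  have hM1 : 1 ≤ M := by
    rw [hM]
    unfold MM
    apply Nat.le_floor
    rw [Nat.cast_one]
    exact Real.one_le_rpow (by exact_mod_cast hq1) (by norm_num)
  have hMr : (1 : ℝ) ≤ M := by exact_mod_cast hM1
  have hMpos : (0 : ℝ) < M := by linarith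
  obtain ⟨G, hG⟩ : ∃ G : ℝ → ℂ, G = fun t => e (Fph w ξ l n n' (g t)) := ⟨_, rfl⟩
  have hG1 : ∀ t, ‖G t‖ = 1 := by
    intro t
    rw [hG]
    exact Exps_norm_e _
  obtain ⟨I, hI⟩ : ∃ I, I = Icc A B := ⟨_, rfl⟩
  obtain ⟨S, hS⟩ : ∃ S : ℂ, S = ∑ a ∈ I, G a := ⟨_, rfl⟩
  have hS' : ∑ a ∈ Finset.Icc A B, e (Fph w ξ l n n' (g a)) = S := by
    rw [hS, hI, hG]
  rw [hS', ← hM, ← hI]
  obtain ⟨D, hD⟩ : ∃ D : ℝ, D = Real.exp (-(Real.log q) ^ β) := ⟨_, rfl⟩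
  have hD0 : 0 ≤ D := by rw [hD]; exact (Real.exp_pos _).le
  rw [← hD]
  obtain ⟨F, hF⟩ : ∃ F : Finset ℕ, F = I.filter
    (fun a : ℕ => |pl w l (g a)| < (Real.log q) ^ (-(1 / 2) : ℝ)) := ⟨_, rfl⟩
  rw [← hF]
  -- the double sums
  have hin : ∀ a ∈ I, ‖∑ y ∈ Icc 1 M, ∑ z ∈ Icc 1 M, G ((a : ℝ) + ((y * z : ℕ) : ℝ))‖ ≤
      (if |pl w l (g a)| < (Real.log q) ^ (-(1 / 2) : ℝ) then (M : ℝ) ^ 2 else 0) +
        (M : ℝ) ^ 2 * D := by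
    intro a ha
    rw [hI, mem_Icc] at ha
    split_ifs with hc
    · have h1 : ‖∑ y ∈ Icc 1 M, ∑ z ∈ Icc 1 M, G ((a : ℝ) + ((y * z : ℕ) : ℝ))‖ ≤ (M : ℝ) ^ 2 := by
        refine (norm_sum_le _ _).trans ?_
        refine (sum_le_sum (fun y _ => norm_sum_le _ _)).trans ?_
        simp only [hG1, sum_const, Nat.card_Icc, nsmul_eq_mul, mul_one]
        rw [show M + 1 - 1 = M by omega, pow_two]
      have : 0 ≤ (M : ℝ) ^ 2 * D := by positivity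
      linarith
    · obtain ⟨Y, W, hEx, h1, h2, h3, h4⟩ := hg a ha.1 ha.2
      have h5 := hcore q hq0 g a Y W hEx h1 h2 h3 h4 ξ hξ hξq l n n' hl hn hn' hnL (not_lt.1 hc)
      rw [hG, zero_add, hD, hM]
      exact h5
  have hsum : ‖∑ a ∈ I, ∑ y ∈ Icc 1 M, ∑ z ∈ Icc 1 M, G ((a : ℝ) + ((y * z : ℕ) : ℝ))‖ ≤
      (M : ℝ) ^ 2 * F.card + I.card * ((M : ℝ) ^ 2 * D) := by
    refine (norm_sum_le _ _).trans ((sum_le_sum hin).trans (le_of_eq ?_))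
    rw [sum_add_distrib, sum_const, nsmul_eq_mul, ← sum_filter, ← hF, sum_const, nsmul_eq_mul,
      mul_comm (F.card : ℝ)]
  have hexch : ∑ a ∈ I, ∑ y ∈ Icc 1 M, ∑ z ∈ Icc 1 M, G ((a : ℝ) + ((y * z : ℕ) : ℝ)) =
      ∑ y ∈ Icc 1 M, ∑ z ∈ Icc 1 M, ∑ a ∈ I, G ((a : ℝ) + ((y * z : ℕ) : ℝ)) := by
    rw [sum_comm]
    refine sum_congr rfl fun y _ => ?_
    rw [sum_comm]
  have hdiff : ‖∑ y ∈ Icc 1 M, ∑ z ∈ Icc 1 M, (S - ∑ a ∈ I, G ((a : ℝ) + ((y * z : ℕ) : ℝ)))‖ ≤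
      2 * (M : ℝ) ^ 4 := by
    have h1 : ∀ y ∈ Icc 1 M, ∀ z ∈ Icc 1 M,
        ‖S - ∑ a ∈ I, G ((a : ℝ) + ((y * z : ℕ) : ℝ))‖ ≤ 2 * (M : ℝ) ^ 2 := by
      intro y hy z hz
      rw [mem_Icc] at hy hz
      rw [hS, hI]
      refine (Exps_shift G hG1 A B (y * z)).trans ?_
      have : y * z ≤ M * M := Nat.mul_le_mul hy.2 hz.2
      have h2 : ((y * z : ℕ) : ℝ) ≤ (M : ℝ) ^ 2 := by
        rw [pow_two]
        exact_mod_cast this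
      linarith
    refine (norm_sum_le _ _).trans ?_
    refine (sum_le_sum (fun y _ => norm_sum_le _ _)).trans ?_
    refine (sum_le_sum (fun y hy => sum_le_sum (fun z hz => h1 y hy z hz))).trans ?_
    simp only [sum_const, Nat.card_Icc, nsmul_eq_mul]
    rw [show M + 1 - 1 = M by omega]
    apply le_of_eq
    ring
  have hSS : ∑ y ∈ Icc 1 M, ∑ z ∈ Icc 1 M, S = ((M : ℂ)) ^ 2 * S := by
    simp only [sum_const, Nat.card_Icc, nsmul_eq_mul]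
    rw [show M + 1 - 1 = M by omega]
    ring
  have hmain : (M : ℝ) ^ 2 * ‖S‖ ≤ 2 * (M : ℝ) ^ 4 +
      ((M : ℝ) ^ 2 * F.card + I.card * ((M : ℝ) ^ 2 * D)) := by
    have h1 : ((M : ℂ)) ^ 2 * S = ∑ y ∈ Icc 1 M, ∑ z ∈ Icc 1 M,
        (S - ∑ a ∈ I, G ((a : ℝ) + ((y * z : ℕ) : ℝ))) +
        ∑ a ∈ I, ∑ y ∈ Icc 1 M, ∑ z ∈ Icc 1 M, G ((a : ℝ) + ((y * z : ℕ) : ℝ)) := by
      rw [hexch, ← hSS, ← sum_add_distrib]
      refine sum_congr rfl fun y _ => ?_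
      rw [← sum_add_distrib]
      refine sum_congr rfl fun z _ => ?_
      ring
    have h2 : ‖((M : ℂ)) ^ 2 * S‖ = (M : ℝ) ^ 2 * ‖S‖ := by
      rw [norm_mul, norm_pow, Complex.norm_natCast]
    rw [← h2, h1]
    exact (norm_add_le _ _).trans (add_le_add hdiff hsum)
  have hM2 : (0 : ℝ) < (M : ℝ) ^ 2 := by positivity
  have : (M : ℝ) ^ 2 * ‖S‖ ≤ (M : ℝ) ^ 2 * ((F.card : ℝ) + 2 * (M : ℝ) ^ 2 + I.card * D) := by
    refine hmain.trans (le_of_eq ?_)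
    ring
  exact le_of_mul_le_mul_left this hM2

end Pool.Agent.N586.DD
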