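import Pool.Agent.N586.DD.Stm
import Pool.Agent.N586.DD.ExpsU
import Pool.Agent.N586.KO.Fin

/-!
# Project DD: the theorem for families
-/

set_option autoImplicit false

namespace Pool.Agent.N586.DD

open Finset Real Filter
open Pool.Agent.Y933.KD (e)
open Pool.Agent.Y933.KD.VdC (ev_le one_add_log_le)
open Pool.Agent.N586.RT (logpow log_ge)
open Pool.Agent.N586.KO

lemma Dsc.mono {n0 n0' N1 N1' : ℕ} {E E' : ℝ} {y : ℕ → ℝ} (h : Dsc n0 N1 E y) (hn : n0 ≤ n0')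
    (hN : N1' ≤ N1) (hE : E ≤ E') : Dsc n0' N1' E' y := fun M N u v h1 h2 h3 h4 h5 =>
  (h M N u v (hn.trans h1) (h2.trans hN) h3 h4 h5).trans
    (mul_le_mul_of_nonneg_right hE (Real.sqrt_nonneg _))

lemma natlog_le (N : ℕ) (hN : 1 ≤ N) : (Nat.log 2 N : ℝ) ≤ 2 * log N := by
  have h1 : 2 ^ Nat.log 2 N ≤ N := Nat.pow_log_le_self 2 (by omega)
  have h2 : ((2 : ℝ)) ^ Nat.log 2 N ≤ N := by exact_mod_cast h1
  have h3 : log (((2 : ℝ)) ^ Nat.log 2 N) ≤ log N := Real.log_le_log (by positivity) h2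
  rw [Real.log_pow] at h3
  have h4 : (1 : ℝ) / 2 ≤ log 2 := by
    have := Real.log_two_gt_d9
    linarith
  have h5 : (0 : ℝ) ≤ Nat.log 2 N := Nat.cast_nonneg _
  nlinarith

open Classical in
theorem dd_main (hE : S_EXPSU) (hD : S_DM) (δ ε T0 T1 c1 C2 : ℝ)
    (hδ : 0 < δ) (hδ2 : δ < 1 / 2) (hε : 0 < ε) (hT : 1 < T0) (hc1 : 0 < c1)
    (hC2 : 0 < C2) : ∃ A0 : ℝ, 0 < A0 ∧ ∃ q0 : ℕ, ∀ q : ℕ, q0 ≤ q → ∀ ξ : ℝ, ξ ≠ 0 →
      20 * |log (|ξ|)| ≤ log q → ∀ (g : ℝ → ℝ) (B : ℕ), Fam T0 T1 c1 C2 q g B →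
      (((Finset.Icc 0 B).filter (fun a : ℕ => ¬ Dsc ⌈A0 * log q⌉₊ ⌊(log q) ^ (1 + δ)⌋₊
        ((log q) ^ ε / 2) (fun n => ξ * (g a) ^ n))).card : ℝ) ≤ q * (log q) ^ (-ε) / 4 := by
  set β := (1 - 2 * δ) / 2 with hβdef
  have hβ : 0 < β := by rw [hβdef]; linarith
  obtain ⟨A0, hA0, q1, hexp⟩ := hE 1 1 δ β T0 T1 hδ hβ (by rw [hβdef]; linarith) hT
  set u : ℝ := ε / 10 with hu
  have hu0 : 0 < u := by positivity
  set K1 : ℝ := 1 + 1 / u with hK1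
  have hK10 : 0 < K1 := by positivity
  set K2 : ℝ := 128 * C2 * (3 * K1) ^ 2 * (3 * K1) ^ 2 * (6 * K1) * 4 with hK2
  have hK20 : 0 ≤ K2 := by positivity
  refine ⟨A0, hA0, ?_⟩
  obtain ⟨q2, hq2⟩ := eventually_atTop.1 (((((((log_ge 1).and
    (logpow (by linarith : (1 : ℝ) < 1 + δ) (A0 + 1))).and
    (logpow (by norm_num : (1 / 2 : ℝ) < 1) 180)).and
    (core_evlog (4 / c1) 3 (22 / 100) (by norm_num))).and
    (logpow (by linarith : β / 2 < β) (3 * (1 + 1 / (β / 2))))).and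
    ((logpow hε 16).and
    (logpow (by linarith : -(3 / 2 * ε) < -ε) (4 * K2)))).and (eventually_ge_atTop 2))
  refine ⟨max q1 q2, fun q hq ξ hξ hLξ g B hF => ?_⟩
  obtain ⟨⟨⟨⟨⟨⟨hL1, hLδ⟩, hL180⟩, hLc⟩, hLβ⟩, hL16, hLfin⟩, hq2'⟩ :=
    hq2 q ((le_max_right _ _).trans hq)
  have hqR : (2 : ℝ) ≤ q := by exact_mod_cast hq2'
  have hq0 : (0 : ℝ) < q := by linarith
  obtain ⟨L, hL⟩ : ∃ L : ℝ, L = log q := ⟨_, rfl⟩
  have hexpq := hexp q ((le_max_left _ _).trans hq)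
  rw [← hL] at hL1 hLδ hL180 hLξ hLc hLβ hL16 hLfin hexpq ⊢
  rw [Real.rpow_one] at hLδ hL180
  rw [Real.rpow_zero, mul_one] at hL16
  have hL0 : 0 < L := by linarith
  have hadd : ∀ x y : ℝ, L ^ x * L ^ y = L ^ (x + y) := fun x y => (Real.rpow_add hL0 x y).symm
  have hmono : ∀ x y : ℝ, x ≤ y → L ^ x ≤ L ^ y := fun x y hxy =>
    Real.rpow_le_rpow_of_exponent_le hL1 hxy
  have hlogL : 0 ≤ log L := Real.log_nonneg hL1
  -- the parameters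
  set n0 : ℕ := ⌈A0 * L⌉₊ with hn0
  set N1 : ℕ := ⌊L ^ (1 + δ)⌋₊ with hN1
  have hn0p : 1 ≤ n0 := Nat.one_le_ceil_iff.2 (by positivity)
  have hn0u : (n0 : ℝ) ≤ (A0 + 1) * L := by
    have := (Nat.ceil_lt_add_one (by positivity : 0 ≤ A0 * L)).le
    rw [← hn0] at this
    linarith
  have hn0l : A0 * L ≤ n0 := Nat.le_ceil _
  have hn0N : n0 ≤ N1 := Nat.le_floor (hn0u.trans hLδ)
  have hN1u : (N1 : ℝ) ≤ L ^ (1 + δ) := Nat.floor_le (by positivity)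
  have hN1p : 1 ≤ N1 := hn0p.trans hn0N
  have hN1R : (1 : ℝ) ≤ N1 := by exact_mod_cast hN1p
  have hlogN1 : log N1 ≤ 3 / 2 * log L := by
    have h2 : log N1 ≤ (1 + δ) * log L := by
      rw [← Real.log_rpow hL0]
      exact Real.log_le_log (by linarith) hN1u
    nlinarith
  have hlogN0 : 0 ≤ log N1 := Real.log_nonneg hN1R
  have hcard : (((Finset.Icc 0 B).card : ℕ) : ℝ) = (B : ℝ) + 1 := by
    rw [Nat.card_Icc]; push_cast; ring
  have hB0 : (0 : ℝ) ≤ (B : ℝ) + 1 := by positivity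
  have hL3 : L ^ (-3 : ℝ) * L ^ (3 : ℝ) = 1 := by
    rw [hadd]; norm_num
  have hL3p : 0 < L ^ (-3 : ℝ) := by positivity
  -- the saving
  have hη : 2 * (MM q : ℝ) ^ 2 + ((B : ℝ) + 1) * Real.exp (-L ^ β) ≤
      L ^ (-3 : ℝ) * ((B : ℝ) + 1) := by
    have h1 : (MM q : ℝ) ≤ (q : ℝ) ^ (39 / 100 : ℝ) := Nat.floor_le (by positivity)
    have h2 : (MM q : ℝ) ^ 2 ≤ (q : ℝ) ^ (78 / 100 : ℝ) := by
      calc (MM q : ℝ) ^ 2 ≤ ((q : ℝ) ^ (39 / 100 : ℝ)) ^ 2 := pow_le_pow_left₀ (by positivity) h1 2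
        _ = (q : ℝ) ^ (78 / 100 : ℝ) := by
          rw [← Real.rpow_natCast, ← Real.rpow_mul hq0.le]; norm_num
    have h3 : 4 * L ^ (3 : ℝ) ≤ c1 * (q : ℝ) ^ (22 / 100 : ℝ) := by
      have := mul_le_mul_of_nonneg_left hLc hc1.le
      calc 4 * L ^ (3 : ℝ) = c1 * (4 / c1 * L ^ (3 : ℝ)) := by field_simp
        _ ≤ _ := this
    have h4 : 4 * (q : ℝ) ^ (78 / 100 : ℝ) * L ^ (3 : ℝ) ≤ (B : ℝ) + 1 := by
      calc 4 * (q : ℝ) ^ (78 / 100 : ℝ) * L ^ (3 : ℝ) = (q : ℝ) ^ (78 / 100 : ℝ) * (4 * L ^ (3 : ℝ)) := by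
            ring
        _ ≤ (q : ℝ) ^ (78 / 100 : ℝ) * (c1 * (q : ℝ) ^ (22 / 100 : ℝ)) := by gcongr
        _ = c1 * ((q : ℝ) ^ (78 / 100 : ℝ) * (q : ℝ) ^ (22 / 100 : ℝ)) := by ring
        _ = c1 * q := by rw [← Real.rpow_add hq0]; norm_num
        _ ≤ _ := hF.lo
    have h5 : 2 * (q : ℝ) ^ (78 / 100 : ℝ) ≤ ((B : ℝ) + 1) * L ^ (-3 : ℝ) / 2 := by
      have h6 := mul_le_mul_of_nonneg_right h4 hL3p.le
      have h7 : 4 * (q : ℝ) ^ (78 / 100 : ℝ) * L ^ (3 : ℝ) * L ^ (-3 : ℝ) =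
          4 * (q : ℝ) ^ (78 / 100 : ℝ) := by
        rw [mul_assoc, mul_comm (L ^ (3 : ℝ)), hL3, mul_one]
      rw [h7] at h6
      linarith
    have h6 : Real.exp (-L ^ β) ≤ L ^ (-3 : ℝ) / 2 := by
      have h7 : 3 * (1 + log L) ≤ L ^ β := by
        have h8 := one_add_log_le hL1 (by positivity : 0 < β / 2)
        calc 3 * (1 + log L) ≤ 3 * ((1 + 1 / (β / 2)) * L ^ (β / 2)) := by linarith
          _ = 3 * (1 + 1 / (β / 2)) * L ^ (β / 2) := by ring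
          _ ≤ L ^ β := hLβ
      have h8 : L ^ (-3 : ℝ) = Real.exp (log L * (-3)) := Real.rpow_def_of_pos hL0 _
      have h9 : L ^ (-3 : ℝ) / 2 = Real.exp (log L * (-3) - log 2) := by
        rw [Real.exp_sub, Real.exp_log (by norm_num), h8]
      rw [h9]
      apply Real.exp_le_exp.2
      have h10 : log 2 ≤ 1 := by
        have := Real.log_two_lt_d9
        linarith
      linarith
    have h7 := mul_le_mul_of_nonneg_left h6 hB0
    nlinarith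
  -- the sums
  have hsum : ∀ h : ℕ, 1 ≤ h → h ≤ N1 ^ 2 → ∀ n n' : ℕ, n0 ≤ n' → n' < n → n ≤ N1 →
      ‖∑ a ∈ Finset.Icc 0 B, e (h * (ξ * (g a) ^ n - ξ * (g a) ^ n'))‖ ≤
        L ^ (-3 : ℝ) * ((Finset.Icc 0 B).card : ℝ) := by
    intro h hh1 hh2 n n' hn' hnn hn
    have hhR : (1 : ℝ) ≤ h := by exact_mod_cast hh1
    have hhp : (0 : ℝ) < h := by linarith
    have hξ' : (h : ℝ) * ξ ≠ 0 := mul_ne_zero hhp.ne' hξ
    have hlogh : log h ≤ 3 * log L := by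
      have h1 : (h : ℝ) ≤ (N1 : ℝ) ^ 2 := by exact_mod_cast hh2
      have h2 : log h ≤ log ((N1 : ℝ) ^ 2) := Real.log_le_log hhp h1
      rw [Real.log_pow] at h2
      push_cast at h2
      linarith
    have hlogh0 : 0 ≤ log h := Real.log_nonneg hhR
    have habs : 10 * |log (|(h : ℝ) * ξ|)| ≤ L := by
      rw [abs_mul, abs_of_pos hhp, Real.log_mul hhp.ne' (abs_pos.2 hξ).ne']
      have h1 : |log (h : ℝ) + log (|ξ|)| ≤ log h + |log (|ξ|)| := by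
        refine (abs_add_le _ _).trans ?_
        rw [abs_of_nonneg hlogh0]
      have h2 := one_add_log_le hL1 (by norm_num : (0 : ℝ) < 1 / 2)
      have h3 : log L ≤ 3 * L ^ (1 / 2 : ℝ) := by
        have : (1 + 1 / (1 / 2 : ℝ)) = 3 := by norm_num
        rw [this] at h2
        linarith
      linarith
    have h1 := hexpq g 0 B (fun a _ ha => hF.ex a ha) (h * ξ) hξ' habs (fun _ => 1) n n'
      (by intro j; norm_num) hnn (hn0l.trans (by exact_mod_cast hn'))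
      (le_trans (by exact_mod_cast hn) hN1u)
    have h2 : ∀ a : ℕ, (h * (ξ * (g a) ^ n - ξ * (g a) ^ n')) =
        Fph 1 (h * ξ) (fun _ => 1) n n' (g a) := by
      intro a
      unfold Fph
      rw [Finset.sum_range_one]
      push_cast
      ring
    simp only [h2]
    refine h1.trans ?_
    have h3 : ((Finset.Icc 0 B).filter (fun a : ℕ => |pl 1 (fun _ => 1) (g a)| <
        L ^ (-(1 / 2) : ℝ))) = ∅ := by
      rw [Finset.filter_eq_empty_iff]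
      intro a _
      unfold pl
      rw [Finset.sum_range_one, pow_zero]
      push_cast
      rw [mul_one, abs_one, not_lt]
      exact Real.rpow_le_one_of_one_le_of_nonpos hL1 (by norm_num)
    rw [h3, Finset.card_empty, Nat.cast_zero, zero_add, hcard]
    exact hη
  have hmain := hD (Finset.Icc 0 B) (fun a n => ξ * (g a) ^ n) n0 N1 (N1 ^ 2) (L ^ (-3 : ℝ))
    (L ^ ε / 2) hn0p hn0N le_rfl hL3p.le (by linarith) hsum
  refine hmain.trans ?_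
  rw [hcard]
  have hlogK : 1 + log L ≤ K1 * L ^ u := one_add_log_le hL1 hu0
  have f1 : 1 + log ((N1 ^ 2 : ℕ) : ℝ) ≤ 3 * K1 * L ^ u := by
    push_cast
    rw [Real.log_pow]
    push_cast
    linarith
  have f10 : 0 ≤ 1 + log ((N1 ^ 2 : ℕ) : ℝ) := by
    push_cast
    rw [Real.log_pow]
    push_cast
    linarith
  have hnl := natlog_le N1 hN1p
  have f2 : (Nat.log 2 N1 : ℝ) + 2 ≤ 3 * K1 * L ^ u := by linarith
  have f20 : (0 : ℝ) ≤ (Nat.log 2 N1 : ℝ) + 2 := by positivity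
  have hN1η : N1 * L ^ (-3 : ℝ) ≤ 1 := by
    calc N1 * L ^ (-3 : ℝ) ≤ L ^ (1 + δ) * L ^ (-3 : ℝ) := by gcongr
      _ = L ^ (1 + δ + -3) := hadd _ _
      _ ≤ L ^ (0 : ℝ) := hmono _ _ (by linarith)
      _ = 1 := Real.rpow_zero L
  have f3 : (Nat.log 2 N1 : ℝ) + 2 + 4 * N1 * L ^ (-3 : ℝ) ≤ 6 * K1 * L ^ u := by linarith
  have f30 : (0 : ℝ) ≤ (Nat.log 2 N1 : ℝ) + 2 + 4 * N1 * L ^ (-3 : ℝ) := by positivity
  have hLε : 0 < L ^ ε := by positivity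
  have hLu : 0 < L ^ u := by positivity
  have g1 : 128 * ((B : ℝ) + 1) * (1 + log ((N1 ^ 2 : ℕ) : ℝ)) ^ 2 * ((Nat.log 2 N1 : ℝ) + 2) ^ 2 *
      ((Nat.log 2 N1 : ℝ) + 2 + 4 * N1 * L ^ (-3 : ℝ)) ≤
      128 * (C2 * q) * (3 * K1 * L ^ u) ^ 2 * (3 * K1 * L ^ u) ^ 2 * (6 * K1 * L ^ u) := by
    have := hF.up
    gcongr
  have hpow5 : (L ^ u) ^ 5 = L ^ (ε / 2) := by
    rw [← Real.rpow_natCast, ← Real.rpow_mul hL0.le, hu]
    congr 1
    push_cast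
    ring
  have hpow2 : (L ^ ε / 2) ^ 2 = L ^ (2 * ε) / 4 := by
    rw [div_pow, ← Real.rpow_natCast (L ^ ε) 2, ← Real.rpow_mul hL0.le]
    push_cast
    rw [mul_comm ε 2]
    norm_num
  calc 128 * ((B : ℝ) + 1) * (1 + log ((N1 ^ 2 : ℕ) : ℝ)) ^ 2 * ((Nat.log 2 N1 : ℝ) + 2) ^ 2 *
      ((Nat.log 2 N1 : ℝ) + 2 + 4 * N1 * L ^ (-3 : ℝ)) / (L ^ ε / 2) ^ 2
      ≤ 128 * (C2 * q) * (3 * K1 * L ^ u) ^ 2 * (3 * K1 * L ^ u) ^ 2 * (6 * K1 * L ^ u) /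
        (L ^ ε / 2) ^ 2 := div_le_div_of_nonneg_right g1 (by positivity)
    _ = q * (K2 * (L ^ (ε / 2) / L ^ (2 * ε))) := by
        rw [hpow2, ← hpow5, hK2]
        field_simp
    _ = q * (4 * K2 * L ^ (-(3 / 2 * ε))) / 4 := by
        rw [← Real.rpow_sub hL0]
        have : ε / 2 - 2 * ε = -(3 / 2 * ε) := by ring
        rw [this]
        ring
    _ ≤ q * L ^ (-ε) / 4 := by
        have := mul_le_mul_of_nonneg_left hLfin hq0.le
        linarith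

end Pool.Agent.N586.DD
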