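import Pool.Agent.N586.DD.Stm

/-!
# Project DD: the maximal inequality of Rademacher and Menshov over a finite set
-/

set_option autoImplicit false

namespace Pool.Agent.N586.DD

open Finset

/-- one step of the binary decomposition -/
theorem mx_block_eq (z : ℕ → ℂ) (n k : ℕ) :
    ‖∑ i ∈ range (n / 2 ^ k * 2 ^ k), z i - ∑ i ∈ range (n / 2 ^ (k + 1) * 2 ^ (k + 1)), z i‖ ^ 2 ≤
      ‖∑ i ∈ Ico (2 * (n / 2 ^ (k + 1)) * 2 ^ k) ((2 * (n / 2 ^ (k + 1)) + 1) * 2 ^ k), z i‖ ^ 2 ∧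
    (n / 2 ^ k * 2 ^ k = n / 2 ^ (k + 1) * 2 ^ (k + 1) ∨
      n / 2 ^ k = 2 * (n / 2 ^ (k + 1)) + 1) := by
  set q := n / 2 ^ k with hq
  have h1 : n / 2 ^ (k + 1) = q / 2 := by
    rw [hq, Nat.div_div_eq_div_mul, pow_succ]
  rw [h1]
  have h2 : q / 2 * 2 ^ (k + 1) = 2 * (q / 2) * 2 ^ k := by
    rw [pow_succ]
    ring
  rw [h2]
  rcases Nat.even_or_odd' q with ⟨m, hm | hm⟩
  · have h3 : q / 2 = m := by omega
    rw [h3, hm, sub_self, norm_zero]
    refine ⟨by rw [zero_pow (by norm_num)]; positivity, Or.inl rfl⟩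
  · have h3 : q / 2 = m := by omega
    rw [h3, hm]
    refine ⟨le_of_eq ?_, Or.inr rfl⟩
    congr 2
    have h4 : 2 * m * 2 ^ k ≤ (2 * m + 1) * 2 ^ k := Nat.mul_le_mul_right _ (by omega)
    rw [Finset.sum_Ico_eq_sub _ h4]

theorem mx_two_power {L : ℕ} (x : ℕ → ℂ) :
    ‖∑ k ∈ range L, x k‖ ^ 2 ≤ (L : ℝ) * ∑ k ∈ range L, ‖x k‖ ^ 2 := by
  have h1 : ‖∑ k ∈ range L, x k‖ ^ 2 ≤ (∑ k ∈ range L, ‖x k‖) ^ 2 :=
    pow_le_pow_left₀ (norm_nonneg _) (norm_sum_le _ _) 2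
  refine h1.trans ?_
  have h3 := sq_sum_le_card_mul_sum_sq (s := range L) (f := fun k => ‖x k‖)
  rwa [card_range] at h3

/-- the maximal inequality of Rademacher and Menshov in the square norm -/
theorem mx_maximal (z : ℕ → ℂ) (L n : ℕ) (hn : n < 2 ^ L) :
    ‖∑ i ∈ range n, z i‖ ^ 2 ≤ (L : ℝ) * ∑ k ∈ range L, ∑ j ∈ range (2 ^ (L - k)),
      ‖∑ i ∈ Ico (j * 2 ^ k) ((j + 1) * 2 ^ k), z i‖ ^ 2 := by
  have h1 : ∑ i ∈ range n, z i = ∑ k ∈ range L,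
      (∑ i ∈ range (n / 2 ^ k * 2 ^ k), z i -
        ∑ i ∈ range (n / 2 ^ (k + 1) * 2 ^ (k + 1)), z i) := by
    rw [Finset.sum_range_sub' (fun k => ∑ i ∈ range (n / 2 ^ k * 2 ^ k), z i)]
    have h2 : n / 2 ^ L = 0 := Nat.div_eq_of_lt hn
    rw [h2]
    simp
  rw [h1]
  refine (mx_two_power _).trans ?_
  apply mul_le_mul_of_nonneg_left _ (by positivity)
  refine Finset.sum_le_sum fun k hk => ?_
  rw [mem_range] at hk
  obtain ⟨h2, h3⟩ := mx_block_eq z n k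
  rcases h3 with h3 | h3
  · rw [h3, sub_self, norm_zero]
    have : (0 : ℝ) ^ 2 = 0 := by norm_num
    rw [this]
    exact Finset.sum_nonneg fun j _ => by positivity
  · refine h2.trans ?_
    have h4 : 2 * (n / 2 ^ (k + 1)) ∈ range (2 ^ (L - k)) := by
      rw [mem_range]
      have h5 : n / 2 ^ k < 2 ^ (L - k) := by
        rw [Nat.div_lt_iff_lt_mul (by positivity), ← pow_add]
        have : L - k + k = L := by omega
        rwa [this]
      omega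
    exact Finset.single_le_sum
      (f := fun j => ‖∑ i ∈ Ico (j * 2 ^ k) ((j + 1) * 2 ^ k), z i‖ ^ 2)
      (fun j _ => by positivity) h4

/-- second moment -/
theorem mx_moment (I s : Finset ℕ) (b : ℕ → ℕ → ℂ) (η : ℝ) (hη : 0 ≤ η) (hb : ∀ a n, ‖b a n‖ ≤ 1)
    (h : ∀ n n' : ℕ, n' < n →
      ‖∑ a ∈ I, b a n * (starRingEnd ℂ) (b a n')‖ ≤ η * (I.card : ℝ)) :
    ∑ a ∈ I, ‖∑ n ∈ s, b a n‖ ^ 2 ≤ I.card * (s.card + η * (s.card : ℝ) ^ 2) := by
  have h1 : ((∑ a ∈ I, ‖∑ n ∈ s, b a n‖ ^ 2 : ℝ) : ℂ) =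
      ∑ n ∈ s, ∑ n' ∈ s, ∑ a ∈ I, b a n * (starRingEnd ℂ) (b a n') := by
    have h2 : ∀ a, ((‖∑ n ∈ s, b a n‖ ^ 2 : ℝ) : ℂ) =
        ∑ n ∈ s, ∑ n' ∈ s, b a n * (starRingEnd ℂ) (b a n') := by
      intro a
      push_cast
      rw [← Complex.mul_conj', map_sum, sum_mul_sum]
    push_cast
    have h3 : ∀ a, ((‖∑ n ∈ s, b a n‖ : ℂ)) ^ 2 =
        ∑ n ∈ s, ∑ n' ∈ s, b a n * (starRingEnd ℂ) (b a n') := by
      intro a
      rw [← h2 a]
      push_cast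
      rfl
    simp only [h3]
    rw [sum_comm]
    refine sum_congr rfl fun n _ => ?_
    rw [sum_comm]
  have h2 : ∑ a ∈ I, ‖∑ n ∈ s, b a n‖ ^ 2 =
      ‖∑ n ∈ s, ∑ n' ∈ s, ∑ a ∈ I, b a n * (starRingEnd ℂ) (b a n')‖ := by
    rw [← h1, Complex.norm_real, Real.norm_eq_abs, abs_of_nonneg]
    exact sum_nonneg fun a _ => sq_nonneg _
  rw [h2]
  have h3 : ∀ n ∈ s, ∀ n' ∈ s, ‖∑ a ∈ I, b a n * (starRingEnd ℂ) (b a n')‖ ≤
      (if n = n' then (I.card : ℝ) else 0) + η * I.card := by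
    intro n hn n' hn'
    rcases lt_trichotomy n n' with h4 | h4 | h4
    · rw [if_neg h4.ne, zero_add]
      have h5 := h n' n h4
      have h6 : ∑ a ∈ I, b a n * (starRingEnd ℂ) (b a n') =
          (starRingEnd ℂ) (∑ a ∈ I, b a n' * (starRingEnd ℂ) (b a n)) := by
        rw [map_sum]
        refine sum_congr rfl fun a _ => ?_
        rw [map_mul, Complex.conj_conj, mul_comm]
      rw [h6, RCLike.norm_conj]
      exact h5
    · rw [if_pos h4, ← h4]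
      have h5 : ∀ a ∈ I, ‖b a n * (starRingEnd ℂ) (b a n)‖ ≤ 1 := by
        intro a _
        rw [norm_mul, RCLike.norm_conj]
        exact mul_le_one₀ (hb a n) (norm_nonneg _) (hb a n)
      have h6 := (norm_sum_le _ _).trans (sum_le_card_nsmul _ _ _ h5)
      rw [nsmul_eq_mul, mul_one] at h6
      have : 0 ≤ η * I.card := by positivity
      linarith
    · rw [if_neg h4.ne', zero_add]
      exact h n n' h4
  refine (norm_sum_le _ _).trans ?_
  have h4 : ∀ n ∈ s, ‖∑ n' ∈ s, ∑ a ∈ I, b a n * (starRingEnd ℂ) (b a n')‖ ≤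
      I.card + s.card * (η * I.card) := by
    intro n hn
    refine (norm_sum_le _ _).trans ((sum_le_sum fun n' hn' => h3 n hn n' hn').trans (le_of_eq ?_))
    rw [sum_add_distrib, sum_ite_eq, if_pos hn, sum_const, nsmul_eq_mul]
  refine (sum_le_sum h4).trans (le_of_eq ?_)
  rw [sum_const, nsmul_eq_mul]
  ring

/-- the maximal inequality of Rademacher and Menshov, for the square mean over `a ∈ I` -/
theorem mx : S_MX := by
  intro I z η i hη hz hoff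
  refine ⟨fun a => (i : ℝ) * ∑ k ∈ range i, ∑ j ∈ range (2 ^ (i - k)),
      ‖∑ n ∈ Ico (j * 2 ^ k) ((j + 1) * 2 ^ k), z a n‖ ^ 2, fun a => ?_, fun a _ m hm => ?_, ?_⟩
  · positivity
  · exact mx_maximal (z a) i m hm
  · rw [← Finset.mul_sum, mul_assoc]
    apply mul_le_mul_of_nonneg_left _ (Nat.cast_nonneg _)
    rw [Finset.sum_comm]
    have hblock : ∀ k j : ℕ, ∑ a ∈ I, ‖∑ n ∈ Ico (j * 2 ^ k) ((j + 1) * 2 ^ k), z a n‖ ^ 2 ≤
        (I.card : ℝ) * (2 ^ k + η * (2 ^ k) ^ 2) := by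
      intro k j
      have h1 := mx_moment I (Ico (j * 2 ^ k) ((j + 1) * 2 ^ k)) z η hη hz hoff
      have hc : (Ico (j * 2 ^ k) ((j + 1) * 2 ^ k)).card = 2 ^ k := by
        rw [Nat.card_Ico, ← Nat.sub_mul, Nat.add_sub_cancel_left, one_mul]
      rw [hc] at h1
      push_cast at h1
      exact h1
    have hlev : ∀ k ∈ range i, ∑ a ∈ I, ∑ j ∈ range (2 ^ (i - k)),
        ‖∑ n ∈ Ico (j * 2 ^ k) ((j + 1) * 2 ^ k), z a n‖ ^ 2 ≤
        (I.card : ℝ) * 2 ^ i * (1 + η * 2 ^ k) := by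
      intro k hk
      rw [mem_range] at hk
      rw [Finset.sum_comm]
      refine (Finset.sum_le_sum fun j _ => hblock k j).trans (le_of_eq ?_)
      rw [Finset.sum_const, card_range, nsmul_eq_mul]
      push_cast
      have h2 : (2 : ℝ) ^ i = 2 ^ (i - k) * 2 ^ k := by
        rw [← pow_add]
        congr 1
        omega
      rw [h2]
      ring
    refine (Finset.sum_le_sum hlev).trans ?_
    rw [← Finset.mul_sum, Finset.sum_add_distrib, ← Finset.mul_sum, Finset.sum_const, card_range,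
      nsmul_eq_mul, mul_one]
    have h3 : ∑ k ∈ range i, (2 : ℝ) ^ k ≤ 2 ^ i := by
      rw [geom_sum_eq (by norm_num)]
      norm_num
    have h4 : η * ∑ k ∈ range i, (2 : ℝ) ^ k ≤ η * 2 ^ i := mul_le_mul_of_nonneg_left h3 hη
    calc (I.card : ℝ) * 2 ^ i * ((i : ℝ) + η * ∑ k ∈ range i, (2 : ℝ) ^ k)
        ≤ (I.card : ℝ) * 2 ^ i * ((i : ℝ) + η * 2 ^ i) := by
          apply mul_le_mul_of_nonneg_left _ (by positivity)
          linarith
      _ = _ := by ring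

end Pool.Agent.N586.DD
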