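import Pool.Agent.N586.KO.Stm
import Pool.Agent.R485.Trans.Saw

/-!
# Project DD: the discrepancy of the powers of almost all members of a progression. Statements.
-/

set_option autoImplicit false

namespace Pool.Agent.N586.DD

open Finset
open Pool.Agent.Y933.KD (e)

/-- DD/ET: the inequality of Erdős and Turán for one interval -/
def S_ET : Prop := ∀ (S : Finset ℕ) (y : ℕ → ℝ) (H : ℕ) (u v : ℝ), 1 ≤ H → 0 ≤ u → u ≤ v → v ≤ 1 →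
    |((S.filter (fun n => u ≤ Int.fract (y n) ∧ Int.fract (y n) < v)).card : ℝ) - S.card * (v - u)| ≤
      2 * ∑ h ∈ Icc 1 H, ‖∑ n ∈ S, e (h * y n)‖ / h + 4 * S.card / √H

/-- the discrepancy of all pieces of the sequence `y` between `n0` and `N1` is at most
`E` times the square root of the endpoint -/
def Dsc (n0 N1 : ℕ) (E : ℝ) (y : ℕ → ℝ) : Prop :=
  ∀ (M N : ℕ) (u v : ℝ), n0 ≤ M → M + N ≤ N1 → 0 ≤ u → u ≤ v → v ≤ 1 →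
    |(((Ico M (M + N)).filter (fun n => u ≤ Int.fract (y n) ∧ Int.fract (y n) < v)).card : ℝ) -
      N * (v - u)| ≤ E * √((M : ℝ) + N)

/-- DD/MX: the maximal inequality of Rademacher and Menshov, for the square mean over `a ∈ I` -/
def S_MX : Prop := ∀ (I : Finset ℕ) (z : ℕ → ℕ → ℂ) (η : ℝ) (i : ℕ), 0 ≤ η →
    (∀ a n, ‖z a n‖ ≤ 1) →
    (∀ n n' : ℕ, n' < n → ‖∑ a ∈ I, z a n * (starRingEnd ℂ) (z a n')‖ ≤ η * (I.card : ℝ)) →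
    ∃ V : ℕ → ℝ, (∀ a, 0 ≤ V a) ∧ (∀ a ∈ I, ∀ m < 2 ^ i, ‖∑ n ∈ range m, z a n‖ ^ 2 ≤ V a) ∧
      ∑ a ∈ I, V a ≤ i * (2 ^ i * (i + 2 ^ i * η)) * (I.card : ℝ)

open Classical in
/-- DD/DM: the second moment method for the discrepancy -/
def S_DM : Prop := ∀ (I : Finset ℕ) (y : ℕ → ℕ → ℝ) (n0 N1 H : ℕ) (η E : ℝ), 1 ≤ n0 → n0 ≤ N1 →
    N1 ^ 2 ≤ H → 0 ≤ η → 8 ≤ E →
    (∀ h : ℕ, 1 ≤ h → h ≤ H → ∀ n n' : ℕ, n0 ≤ n' → n' < n → n ≤ N1 →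
      ‖∑ a ∈ I, e (h * (y a n - y a n'))‖ ≤ η * (I.card : ℝ)) →
    ((I.filter (fun a => ¬ Dsc n0 N1 E (y a))).card : ℝ) ≤
      128 * (I.card : ℝ) * (1 + Real.log H) ^ 2 * ((Nat.log 2 N1 : ℝ) + 2) ^ 2 *
        ((Nat.log 2 N1 : ℝ) + 2 + 4 * N1 * η) / E ^ 2

end Pool.Agent.N586.DD
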